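import Pool.Agent.Helper47.SizeRamsey.Paths

set_option autoImplicit false
set_option linter.unusedSectionVars false

namespace Pool.Agent.Helper47.SizeRamsey

open Finset

/-- The number of `Bool`-valued functions that are constant `b` on a finset `T`. -/
theorem card_const_on {X : Type*} [Fintype X] [DecidableEq X] (T : Finset X) (b : Bool) :
    (Finset.univ.filter (fun c : X → Bool => ∀ x ∈ T, c x = b)).card * 2 ^ T.card = 2 ^ Fintype.card X := by
  have h1 : Finset.univ.filter (fun c : X → Bool => ∀ x ∈ T, c x = b)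
      = Fintype.piFinset (fun x => if x ∈ T then ({b} : Finset Bool) else Finset.univ) := by
    ext c
    rw [Finset.mem_filter, Fintype.mem_piFinset]
    simp only [Finset.mem_univ, true_and]
    constructor
    · intro h x
      by_cases hx : x ∈ T
      · rw [if_pos hx, Finset.mem_singleton]; exact h x hx
      · rw [if_neg hx]; exact Finset.mem_univ _
    · intro h x hx
      have := h x
      rw [if_pos hx, Finset.mem_singleton] at this
      exact this
  rw [h1, Fintype.card_piFinset]
  have h2 : ∀ x : X, (if x ∈ T then ({b} : Finset Bool) else Finset.univ).card = if x ∈ T then 1 else 2 := by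
    intro x
    split_ifs <;> simp
  rw [Finset.prod_congr rfl (fun x _ => h2 x), Finset.prod_ite]
  simp only [Finset.prod_const_one, one_mul, Finset.prod_const]
  rw [← pow_add]
  congr 1
  have h3 : (Finset.univ.filter (fun x => x ∉ T)).card + T.card = Fintype.card X := by
    have h4 : Finset.univ.filter (fun x => x ∉ T) = Tᶜ := by
      ext x; simp
    rw [h4, Finset.card_compl]
    have := Finset.card_le_univ T
    omega
  exact h3

/-- First moment bound: if `G → H` then `G` contains at least `2^(e(H)-1)` labelled copies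
of `H`. -/
theorem pow_le_card_embeddings {V W : Type*} [Fintype V] [DecidableEq V] [Fintype W] [DecidableEq W]
    (G : SimpleGraph V) (H : SimpleGraph W) [DecidableRel G.Adj] [DecidableRel H.Adj]
    (h : Arrows G H) (F : Finset (W → V))
    (hF : ∀ f : W → V, Function.Injective f → (∀ x y, H.Adj x y → G.Adj (f x) (f y)) → f ∈ F)
    (hF' : ∀ f ∈ F, Function.Injective f) :
    2 ^ H.edgeFinset.card ≤ 2 * F.card := by
  classical
  have hpos : 0 < 2 ^ Fintype.card (Sym2 V) := by positivity
  let T : (W → V) → Finset (Sym2 V) := fun f => H.edgeFinset.image (Sym2.map f)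
  let bad : Bool → (W → V) → Finset (Sym2 V → Bool) := fun b f =>
    Finset.univ.filter (fun c => ∀ e ∈ T f, c e = b)
  have hcover : (Finset.univ : Finset (Sym2 V → Bool)) ⊆
      (Finset.univ : Finset Bool).biUnion (fun b => F.biUnion (fun f => bad b f)) := by
    intro c _
    obtain ⟨b, f, hinj, hf⟩ := h c
    rw [Finset.mem_biUnion]
    refine ⟨b, Finset.mem_univ _, ?_⟩
    rw [Finset.mem_biUnion]
    refine ⟨f, hF f hinj (fun x y hxy => (hf x y hxy).1), ?_⟩
    simp only [bad, Finset.mem_filter, Finset.mem_univ, true_and, T, Finset.mem_image]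
    rintro e ⟨e', he', rfl⟩
    rw [SimpleGraph.mem_edgeFinset] at he'
    induction e' using Sym2.ind with
    | _ x y =>
      rw [Sym2.map_mk]
      exact (hf x y he').2
  have hTcard : ∀ f ∈ F, (T f).card = H.edgeFinset.card := by
    intro f hf
    exact Finset.card_image_of_injective _ (Sym2.map.injective (hF' f hf))
  have h1 : (2 ^ Fintype.card (Sym2 V)) * 2 ^ H.edgeFinset.card
      ≤ ∑ b : Bool, ∑ f ∈ F, (bad b f).card * 2 ^ H.edgeFinset.card := by
    have h2 := Finset.card_le_card hcover
    have h3 : (Finset.univ : Finset (Sym2 V → Bool)).card = 2 ^ Fintype.card (Sym2 V) := by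
      rw [Finset.card_univ, Fintype.card_fun, Fintype.card_bool]
    rw [h3] at h2
    have h4 : ((Finset.univ : Finset Bool).biUnion (fun b => F.biUnion (fun f => bad b f))).card
        ≤ ∑ b : Bool, ∑ f ∈ F, (bad b f).card := by
      refine Finset.card_biUnion_le.trans ?_
      apply Finset.sum_le_sum
      intro b _
      exact Finset.card_biUnion_le
    calc (2 ^ Fintype.card (Sym2 V)) * 2 ^ H.edgeFinset.card
        ≤ (∑ b : Bool, ∑ f ∈ F, (bad b f).card) * 2 ^ H.edgeFinset.card :=
          Nat.mul_le_mul_right _ (h2.trans h4)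
      _ = _ := by
          rw [Finset.sum_mul]
          apply Finset.sum_congr rfl
          intro b _
          rw [Finset.sum_mul]
  have h5 : ∀ b : Bool, ∑ f ∈ F, (bad b f).card * 2 ^ H.edgeFinset.card
      = F.card * 2 ^ Fintype.card (Sym2 V) := by
    intro b
    have h6 : ∀ f ∈ F, (bad b f).card * 2 ^ H.edgeFinset.card = 2 ^ Fintype.card (Sym2 V) := by
      intro f hf
      rw [← hTcard f hf]
      exact card_const_on (T f) b
    rw [Finset.sum_congr rfl h6]
    simp
  rw [Finset.sum_congr rfl (fun b _ => h5 b)] at h1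
  simp only [Finset.sum_const, Finset.card_univ, Fintype.card_bool, smul_eq_mul] at h1
  have h7 : 2 ^ Fintype.card (Sym2 V) * 2 ^ H.edgeFinset.card
      ≤ 2 ^ Fintype.card (Sym2 V) * (2 * F.card) := by
    calc _ ≤ 2 * (F.card * 2 ^ Fintype.card (Sym2 V)) := h1
      _ = _ := by ring
  exact Nat.le_of_mul_le_mul_left h7 hpos

/-- Main inequality: if `G → H` and `H` has a Hamiltonian path on `k + 1` vertices, then
`k^k 2^(e(H)) ≤ 4 e(G)^(k+1)`. -/
theorem main_ineq {V W : Type*} [Fintype V] [DecidableEq V] [Fintype W] [DecidableEq W]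
    (G : SimpleGraph V) (H : SimpleGraph W) [DecidableRel G.Adj] [DecidableRel H.Adj]
    (h : Arrows G H) (k : ℕ) (hk : 1 ≤ k) (g : Fin (k + 1) → W) (hg : Function.Bijective g)
    (hadj : ∀ i : Fin k, H.Adj (g i.castSucc) (g i.succ)) :
    (k : ℝ) ^ k * 2 ^ H.edgeFinset.card ≤ 4 * (G.edgeFinset.card : ℝ) ^ (k + 1) := by
  classical
  let F : Finset (W → V) := Finset.univ.filter
    (fun f => Function.Injective f ∧ ∀ x y, H.Adj x y → G.Adj (f x) (f y))
  have h1 := pow_le_card_embeddings G H h F
    (by
      intro f hf hf'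
      simp only [F, Finset.mem_filter, Finset.mem_univ, true_and]
      exact ⟨hf, hf'⟩)
    (by
      intro f hf
      simp only [F, Finset.mem_filter, Finset.mem_univ, true_and] at hf
      exact hf.1)
  have h2 := card_paths_le G k hk (F.image (fun f => f ∘ g))
    (by
      intro p hp
      obtain ⟨f, hf, rfl⟩ := Finset.mem_image.mp hp
      simp only [F, Finset.mem_filter, Finset.mem_univ, true_and] at hf
      exact hf.1.comp hg.1)
    (by
      intro p hp i
      obtain ⟨f, hf, rfl⟩ := Finset.mem_image.mp hp
      simp only [F, Finset.mem_filter, Finset.mem_univ, true_and] at hf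
      exact hf.2 _ _ (hadj i))
  have h3 : (F.image (fun f => f ∘ g)).card = F.card := by
    apply Finset.card_image_of_injective
    intro f1 f2 h12
    exact hg.2.injective_comp_right h12
  rw [h3] at h2
  have h4 : (2:ℝ) ^ H.edgeFinset.card ≤ 2 * F.card := by exact_mod_cast h1
  have h5 : (0:ℝ) ≤ (k : ℝ) ^ k := by positivity
  calc (k : ℝ) ^ k * 2 ^ H.edgeFinset.card
      ≤ (k : ℝ) ^ k * (2 * F.card) := mul_le_mul_of_nonneg_left h4 h5
    _ = 2 * (F.card * (k : ℝ) ^ k) := by ring
    _ ≤ _ := by linarith

end Pool.Agent.Helper47.SizeRamsey
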