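import Pool.Agent.Helper47.SizeRamsey.Avg

set_option autoImplicit false
set_option linter.unusedSectionVars false

namespace Pool.Agent.Helper47.SizeRamsey

open Finset Filter Topology

theorem adj_cons_cons {d n : ℕ} (a : Fin n) {y z : Fin d → Fin n} (h : (gridGraph d n).Adj y z) :
    (gridGraph (d + 1) n).Adj (Fin.cons a y : Fin (d + 1) → Fin n) (Fin.cons a z : Fin (d + 1) → Fin n) := by
  obtain ⟨i, h1, h2⟩ := h
  refine ⟨i.succ, ?_, ?_⟩
  · intro j
    refine Fin.cases ?_ (fun j => ?_) j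
    · intro _
      simp
    · intro hj
      simp only [Fin.cons_succ]
      exact h1 j (fun h => hj (by rw [h]))
  · simpa using h2

theorem adj_cons_of_head {d n : ℕ} (a b : Fin n) (y : Fin d → Fin n) (h : (a : ℕ) + 1 = b) :
    (gridGraph (d + 1) n).Adj (Fin.cons a y : Fin (d + 1) → Fin n) (Fin.cons b y : Fin (d + 1) → Fin n) := by
  refine ⟨0, ?_, ?_⟩
  · intro j
    refine Fin.cases ?_ (fun j => ?_) j
    · intro hj
      exact absurd rfl hj
    · intro _
      simp
  · left
    simpa using h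

/-- The snake: a Hamiltonian path of the grid. -/
theorem exists_snake (n : ℕ) [NeZero n] (d : ℕ) : ∃ g : ℕ → (Fin d → Fin n),
    (∀ i, i + 1 < n ^ d → (gridGraph d n).Adj (g i) (g (i + 1))) ∧
    (∀ i j, i < n ^ d → j < n ^ d → g i = g j → i = j) := by
  have hn : 0 < n := Nat.pos_of_ne_zero (NeZero.ne n)
  induction d with
  | zero =>
    refine ⟨fun _ => fun i => i.elim0, ?_, ?_⟩
    · intro i hi
      simp at hi
    · intro i j hi hj _
      simp at hi hj
      omega
  | succ d ih =>
    obtain ⟨g, hg1, hg2⟩ := ih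
    set N := n ^ d with hN
    have hNpos : 0 < N := by positivity
    let t : ℕ → (Fin d → Fin n) := fun k => if (k / N) % 2 = 0 then g (k % N) else g (N - 1 - k % N)
    refine ⟨fun k => Fin.cons (Fin.ofNat n (k / N)) (t k), ?_, ?_⟩
    · intro k hk
      have hk' : k + 1 < n * N := by
        rw [pow_succ] at hk
        rw [mul_comm]; exact hk
      have hq : k / N < n := by
        rw [Nat.div_lt_iff_lt_mul hNpos]; omega
      have hmod := Nat.mod_lt k hNpos
      have hdm := Nat.div_add_mod k N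
      by_cases hr : k % N + 1 < N
      · have h1 : (k + 1) / N = k / N := by
          apply Nat.div_eq_of_lt_le
          · rw [mul_comm]; omega
          · rw [Nat.succ_mul, mul_comm]; omega
        have h2 : (k + 1) % N = k % N + 1 := by
          have := Nat.div_add_mod (k + 1) N
          rw [h1] at this
          omega
        simp only [h1]
        apply adj_cons_cons
        simp only [t, h1, h2]
        split_ifs with h3
        · exact hg1 _ hr
        · have h4 : N - 1 - k % N = (N - 1 - (k % N + 1)) + 1 := by omega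
          rw [h4]
          exact (hg1 _ (by omega)).symm
      · have hr' : k % N = N - 1 := by omega
        have h1 : (k + 1) / N = k / N + 1 := by
          apply Nat.div_eq_of_lt_le
          · rw [Nat.succ_mul, mul_comm]; omega
          · rw [Nat.succ_mul, Nat.succ_mul, mul_comm]; omega
        have h2 : (k + 1) % N = 0 := by
          have := Nat.div_add_mod (k + 1) N
          rw [h1, Nat.mul_add] at this
          omega
        have hq' : k / N + 1 < n := by
          rw [← h1, Nat.div_lt_iff_lt_mul hNpos]; exact hk'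
        have h3 : t (k + 1) = t k := by
          simp only [t, h1, h2, hr']
          by_cases h4 : (k / N) % 2 = 0
          · have h5 : ¬ ((k / N + 1) % 2 = 0) := by omega
            rw [if_pos h4, if_neg h5]
            simp
          · have h5 : (k / N + 1) % 2 = 0 := by omega
            rw [if_neg h4, if_pos h5]
            simp
        show (gridGraph (d + 1) n).Adj (Fin.cons (Fin.ofNat n (k / N)) (t k) : Fin (d + 1) → Fin n)
          (Fin.cons (Fin.ofNat n ((k + 1) / N)) (t (k + 1)) : Fin (d + 1) → Fin n)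
        rw [h3]
        apply adj_cons_of_head
        rw [Fin.val_ofNat, Fin.val_ofNat, h1, Nat.mod_eq_of_lt hq, Nat.mod_eq_of_lt hq']
    · intro i j hi hj hij
      have hi' : i < n * N := by rw [pow_succ] at hi; rw [mul_comm]; exact hi
      have hj' : j < n * N := by rw [pow_succ] at hj; rw [mul_comm]; exact hj
      have h1 := Fin.cons_injective2 hij
      have hqi : i / N < n := by rw [Nat.div_lt_iff_lt_mul hNpos]; exact hi'
      have hqj : j / N < n := by rw [Nat.div_lt_iff_lt_mul hNpos]; exact hj'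
      have h2 : i / N = j / N := by
        have := congrArg Fin.val h1.1
        rw [Fin.val_ofNat, Fin.val_ofNat, Nat.mod_eq_of_lt hqi, Nat.mod_eq_of_lt hqj] at this
        exact this
      have h3 := h1.2
      simp only [t, h2] at h3
      have hmi := Nat.mod_lt i hNpos
      have hmj := Nat.mod_lt j hNpos
      have h4 : i % N = j % N := by
        split_ifs at h3 with h5
        · exact hg2 _ _ hmi hmj h3
        · have := hg2 _ _ (by omega) (by omega) h3
          omega
      rw [← Nat.div_add_mod i N, ← Nat.div_add_mod j N, h2, h4]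

/-- The edge count of the grid (lower bound). -/
theorem card_edges_ge (d n : ℕ) [DecidableRel (gridGraph (d + 1) (n + 1)).Adj] :
    (d + 1) * n * (n + 1) ^ d ≤ (gridGraph (d + 1) (n + 1)).edgeFinset.card := by
  classical
  let F : Fin (d + 1) × Fin n × (Fin d → Fin (n + 1)) → Sym2 (Fin (d + 1) → Fin (n + 1)) :=
    fun x => s(x.1.insertNth x.2.1.castSucc x.2.2, x.1.insertNth x.2.1.succ x.2.2)
  have hsum : ∀ (i : Fin (d + 1)) (a : Fin (n + 1)) (y : Fin d → Fin (n + 1)),
      ∑ j, ((i.insertNth a y : Fin (d + 1) → Fin (n + 1)) j : ℕ) = a + ∑ j, (y j : ℕ) := by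
    intro i a y
    rw [Fin.sum_univ_succAbove _ i]
    simp
  have hF : Function.Injective F := by
    rintro ⟨i, a, y⟩ ⟨j, b, z⟩ h
    simp only [F] at h
    have hcase : (i.insertNth a.castSucc y : Fin (d + 1) → Fin (n + 1)) = j.insertNth b.castSucc z
        ∧ (i.insertNth a.succ y : Fin (d + 1) → Fin (n + 1)) = j.insertNth b.succ z := by
      rw [Sym2.eq_iff] at h
      rcases h with h | ⟨h1, h2⟩
      · exact h
      · exfalso
        have e1 := congrArg (fun f : Fin (d + 1) → Fin (n + 1) => ∑ j, (f j : ℕ)) h1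
        have e2 := congrArg (fun f : Fin (d + 1) → Fin (n + 1) => ∑ j, (f j : ℕ)) h2
        simp only [hsum, Fin.val_castSucc, Fin.val_succ] at e1 e2
        omega
    obtain ⟨h1, h2⟩ := hcase
    have hij : i = j := by
      by_contra hne
      have e1 := congrFun h1 i
      have e2 := congrFun h2 i
      rw [Fin.insertNth_apply_same] at e1 e2
      obtain ⟨l, hl⟩ := Fin.exists_succAbove_eq hne
      rw [← hl] at e1 e2
      rw [Fin.insertNth_apply_succAbove] at e1 e2
      have := e1.trans e2.symm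
      have h5 := congrArg Fin.val this
      simp at h5
    subst hij
    have h3 : a.castSucc = b.castSucc := by
      have := congrFun h1 i
      rwa [Fin.insertNth_apply_same, Fin.insertNth_apply_same] at this
    have h4 : y = z := by
      funext l
      have := congrFun h1 (i.succAbove l)
      rwa [Fin.insertNth_apply_succAbove, Fin.insertNth_apply_succAbove] at this
    have h5 : a = b := Fin.castSucc_injective _ h3
    subst h5
    subst h4
    rfl
  have himg : (Finset.univ.image F) ⊆ (gridGraph (d + 1) (n + 1)).edgeFinset := by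
    intro e he
    obtain ⟨⟨i, a, y⟩, _, rfl⟩ := Finset.mem_image.mp he
    rw [SimpleGraph.mem_edgeFinset]
    simp only [F, SimpleGraph.mem_edgeSet]
    refine ⟨i, ?_, ?_⟩
    · intro j hj
      obtain ⟨l, hl⟩ := Fin.exists_succAbove_eq hj
      rw [← hl, Fin.insertNth_apply_succAbove, Fin.insertNth_apply_succAbove]
    · left
      rw [Fin.insertNth_apply_same, Fin.insertNth_apply_same]
      simp
  have h1 := Finset.card_le_card himg
  rw [Finset.card_image_of_injective _ hF, Finset.card_univ] at h1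
  simp only [Fintype.card_prod, Fintype.card_fin, Fintype.card_fun] at h1
  calc (d + 1) * n * (n + 1) ^ d = (d + 1) * (n * (n + 1) ^ d) := by ring
    _ ≤ _ := h1

/-- The inequality for the grid. -/
theorem grid_ineq {V : Type*} [Fintype V] [DecidableEq V] (G : SimpleGraph V) [DecidableRel G.Adj]
    (d n : ℕ) (hn : 1 ≤ n) (h : Arrows G (gridGraph (d + 1) (n + 1))) :
    ((((n + 1) ^ (d + 1) : ℕ) : ℝ) - 1) ^ ((n + 1) ^ (d + 1) - 1) * 2 ^ ((d + 1) * n * (n + 1) ^ d)
      ≤ 4 * (G.edgeFinset.card : ℝ) ^ ((n + 1) ^ (d + 1)) := by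
  classical
  obtain ⟨g, hg1, hg2⟩ := exists_snake (n + 1) (d + 1)
  have hN : 2 ≤ (n + 1) ^ (d + 1) := by
    calc 2 ≤ (n + 1) ^ 1 := by rw [pow_one]; omega
      _ ≤ (n + 1) ^ (d + 1) := Nat.pow_le_pow_right (by omega) (by omega)
  obtain ⟨k, hk⟩ : ∃ k, (n + 1) ^ (d + 1) = k + 1 := ⟨(n + 1) ^ (d + 1) - 1, by omega⟩
  let g' : Fin (k + 1) → (Fin (d + 1) → Fin (n + 1)) := fun i => g i
  have hinj : Function.Injective g' := by
    intro i j hij
    apply Fin.ext
    exact hg2 i j (by rw [hk]; exact i.2) (by rw [hk]; exact j.2) hij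
  have hbij : Function.Bijective g' := by
    rw [Fintype.bijective_iff_injective_and_card]
    refine ⟨hinj, ?_⟩
    simp only [Fintype.card_fun, Fintype.card_fin]
    exact hk.symm
  have h1 := main_ineq G (gridGraph (d + 1) (n + 1)) h k (by omega) g' hbij
    (by
      intro i
      simp only [g', Fin.val_castSucc, Fin.val_succ]
      apply hg1
      rw [hk]
      have := i.2
      omega)
  rw [hk]
  have h2 : (((k + 1 : ℕ) : ℝ) - 1) = k := by push_cast; ring
  have h3 : k + 1 - 1 = k := by omega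
  rw [h2, h3]
  refine le_trans ?_ h1
  apply mul_le_mul_of_nonneg_left _ (by positivity)
  apply pow_le_pow_right₀ (by norm_num)
  exact card_edges_ge d n

theorem tendsto_aux (d : ℕ) (c : ℝ) :
    Tendsto (fun n : ℕ => (c + Real.log ((n : ℝ) ^ (d + 1))) / (n : ℝ) ^ (d + 1)
      + (d + 1) * Real.log 2 / n) atTop (𝓝 0) := by
  have h1 : Tendsto (fun n : ℕ => (n : ℝ) ^ (d + 1)) atTop atTop :=
    (tendsto_pow_atTop (by omega)).comp tendsto_natCast_atTop_atTop
  have h2 : Tendsto (fun x : ℝ => Real.log x / x) atTop (𝓝 0) :=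
    Real.isLittleO_log_id_atTop.tendsto_div_nhds_zero
  have h3 : Tendsto (fun n : ℕ => Real.log ((n : ℝ) ^ (d + 1)) / (n : ℝ) ^ (d + 1)) atTop (𝓝 0) :=
    h2.comp h1
  have h4 : Tendsto (fun n : ℕ => c / (n : ℝ) ^ (d + 1)) atTop (𝓝 0) :=
    tendsto_const_nhds.div_atTop h1
  have h5 : Tendsto (fun n : ℕ => ((d : ℝ) + 1) * Real.log 2 / (n : ℝ)) atTop (𝓝 0) :=
    tendsto_const_nhds.div_atTop tendsto_natCast_atTop_atTop
  have h6 := (h4.add h3).add h5
  simp only [add_zero] at h6
  refine h6.congr ?_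
  intro n
  rw [add_div]

/-- `N^(N-1) ≤ e (N-1)^(N-1)`. -/
theorem pow_pred_le (k : ℕ) (hk : 1 ≤ k) : ((k : ℝ) + 1) ^ k ≤ Real.exp 1 * (k : ℝ) ^ k := by
  have hk' : (0:ℝ) < k := by exact_mod_cast hk
  have h1 : (k : ℝ) + 1 = k * (1 + 1 / k) := by field_simp
  rw [h1, mul_pow, mul_comm]
  apply mul_le_mul_of_nonneg_right _ (by positivity)
  have h2 : (1 + 1 / (k:ℝ)) ≤ Real.exp (1 / k) := by
    have := Real.add_one_le_exp (1 / (k:ℝ))
    linarith
  calc (1 + 1 / (k:ℝ)) ^ k ≤ (Real.exp (1 / k)) ^ k := pow_le_pow_left₀ (by positivity) h2 _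
    _ = Real.exp 1 := by
        rw [← Real.exp_nat_mul]
        congr 1
        field_simp

/-- Lower bound `(2^d - o(1)) n^d` (here in dimension `d + 1`). -/
theorem lower_bound (d : ℕ) (ε : ℝ) (hε : 0 < ε) :
    ∃ n₀ : ℕ, ∀ n : ℕ, n₀ ≤ n → ∀ (V : Type) [Fintype V] (G : SimpleGraph V),
      Arrows G (gridGraph (d + 1) n) →
        ((2 : ℝ) ^ (d + 1) - ε) * (n : ℝ) ^ (d + 1) ≤ (G.edgeSet.ncard : ℝ) := by
  classical
  by_cases hε2 : (2:ℝ) ^ (d + 1) ≤ ε
  · refine ⟨0, ?_⟩
    intro n _ V _ G _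
    have h1 : ((2 : ℝ) ^ (d + 1) - ε) * (n : ℝ) ^ (d + 1) ≤ 0 :=
      mul_nonpos_of_nonpos_of_nonneg (by linarith) (by positivity)
    have h2 : (0:ℝ) ≤ (G.edgeSet.ncard : ℝ) := Nat.cast_nonneg _
    linarith
  push Not at hε2
  set a : ℝ := (2:ℝ) ^ (d + 1) - ε with ha
  have hapos : 0 < a := by rw [ha]; linarith
  have halt : a < 2 ^ (d + 1) := by rw [ha]; linarith
  have hlog : 0 < Real.log (2 ^ (d + 1) / a) := by
    apply Real.log_pos
    rw [one_lt_div hapos]
    exact halt
  have hev := (tendsto_aux d (Real.log (4 * Real.exp 1))).eventually (gt_mem_nhds hlog)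
  rw [eventually_atTop] at hev
  obtain ⟨n1, hn1⟩ := hev
  refine ⟨max n1 2, ?_⟩
  intro n hn V _ G hG
  have hn2 : 2 ≤ n := le_trans (le_max_right _ _) hn
  have hlt := hn1 n (le_trans (le_max_left _ _) hn)
  by_contra hcon
  push Not at hcon
  obtain ⟨n', rfl⟩ : ∃ n', n = n' + 1 := ⟨n - 1, by omega⟩
  have h1 := grid_ineq G d n' (by omega) hG
  have hcard : G.edgeSet.ncard = G.edgeFinset.card := by
    rw [← SimpleGraph.coe_edgeFinset, Set.ncard_coe_finset]
  rw [hcard] at hcon
  set N : ℕ := (n' + 1) ^ (d + 1) with hN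
  have hN2 : 2 ≤ N := by
    calc 2 ≤ (n' + 1) ^ 1 := by rw [pow_one]; omega
      _ ≤ (n' + 1) ^ (d + 1) := Nat.pow_le_pow_right (by omega) (by omega)
  have hNr : ((n' + 1 : ℕ) : ℝ) ^ (d + 1) = (N : ℝ) := by rw [hN]; push_cast; ring
  rw [hNr] at hcon hlt
  have hNpos : (0:ℝ) < N := by
    rw [hN]; positivity
  have h2 : (G.edgeFinset.card : ℝ) ≤ a * N := hcon.le
  have h3 : ((N : ℝ) - 1) ^ (N - 1) * 2 ^ ((d + 1) * n' * (n' + 1) ^ d) ≤ 4 * (a * N) ^ N := by
    refine h1.trans ?_
    apply mul_le_mul_of_nonneg_left _ (by norm_num)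
    apply pow_le_pow_left₀ (by positivity) h2
  have h4 : (2:ℝ) ^ ((d + 1) * n' * (n' + 1) ^ d) ≤ 4 * Real.exp 1 * N * a ^ N := by
    obtain ⟨k, hk⟩ : ∃ k, N = k + 1 := ⟨N - 1, by omega⟩
    have hkr : (N : ℝ) = k + 1 := by rw [hk]; push_cast; ring
    have hk1 : N - 1 = k := by omega
    have hk2 : 1 ≤ k := by omega
    have h5 := pow_pred_le k hk2
    rw [hk1, hkr] at h3
    have h6 : ((k:ℝ) + 1 - 1) = k := by ring
    rw [h6] at h3
    have hkpos : (0:ℝ) < (k:ℝ) ^ k := by
      have : (0:ℝ) < k := by exact_mod_cast hk2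
      positivity
    have h7 : (k:ℝ) ^ k * 2 ^ ((d + 1) * n' * (n' + 1) ^ d) ≤ (k:ℝ) ^ k * (4 * Real.exp 1 * N * a ^ N) := by
      refine h3.trans ?_
      rw [hk, mul_pow, pow_succ ((k:ℝ) + 1) k]
      calc 4 * (a ^ (k + 1) * (((k:ℝ) + 1) ^ k * ((k:ℝ) + 1)))
          = 4 * a ^ (k + 1) * ((k:ℝ) + 1) * (((k:ℝ) + 1) ^ k) := by ring
        _ ≤ 4 * a ^ (k + 1) * ((k:ℝ) + 1) * (Real.exp 1 * (k : ℝ) ^ k) :=
            mul_le_mul_of_nonneg_left h5 (by positivity)
        _ = _ := by push_cast; ring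
    exact le_of_mul_le_mul_left h7 hkpos
  -- take logarithms
  have h5 : ((d + 1) * n' * (n' + 1) ^ d : ℕ) * Real.log 2
      ≤ Real.log (4 * Real.exp 1) + Real.log N + N * Real.log a := by
    have h6 := Real.log_le_log (by positivity) h4
    rw [Real.log_pow, Real.log_mul (by positivity) (by positivity), Real.log_mul (by positivity) (by positivity),
      Real.log_pow] at h6
    exact h6
  have h6 : (((d + 1) * n' * (n' + 1) ^ d : ℕ) : ℝ) = (d + 1) * N - (d + 1) * N / ((n' + 1 : ℕ) : ℝ) := by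
    have hne : ((n' + 1 : ℕ) : ℝ) ≠ 0 := by positivity
    rw [eq_sub_iff_add_eq, hN]
    push_cast
    field_simp
    push_cast at hne
    ring
  rw [h6] at h5
  have h7 : Real.log (2 ^ (d + 1) / a) = (d + 1) * Real.log 2 - Real.log a := by
    rw [Real.log_div (by positivity) hapos.ne', Real.log_pow]
    push_cast
    ring
  rw [h7] at hlt
  have h8 : ((Real.log (4 * Real.exp 1) + Real.log N) / N + (d + 1) * Real.log 2 / ((n' + 1 : ℕ) : ℝ)) * N
      < ((d + 1) * Real.log 2 - Real.log a) * N := mul_lt_mul_of_pos_right hlt hNpos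
  have h9 : ((Real.log (4 * Real.exp 1) + Real.log N) / N + (d + 1) * Real.log 2 / ((n' + 1 : ℕ) : ℝ)) * N
      = Real.log (4 * Real.exp 1) + Real.log N + (d + 1) * N / ((n' + 1 : ℕ) : ℝ) * Real.log 2 := by
    field_simp
  rw [h9] at h8
  nlinarith [h8, h5]

end Pool.Agent.Helper47.SizeRamsey
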