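import Mathlib

set_option autoImplicit false
set_option linter.unusedSectionVars false

namespace Pool.Agent.Helper47.SizeRamsey

open Finset

/-- The `d`-dimensional grid graph on `[n]^d`: two vertices are adjacent when they differ in
exactly one coordinate, and there by exactly one. -/
def gridGraph (d n : ℕ) : SimpleGraph (Fin d → Fin n) where
  Adj x y := ∃ i, (∀ j, j ≠ i → x j = y j) ∧ ((x i : ℕ) + 1 = y i ∨ (y i : ℕ) + 1 = x i)
  symm := ⟨by
    rintro x y ⟨i, h1, h2⟩
    exact ⟨i, fun j hj => (h1 j hj).symm, h2.symm⟩⟩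
  loopless := ⟨by
    rintro x ⟨i, _, h2⟩
    omega⟩

/-- `G → H`: every colouring of the edges of `G` with two colours has a monochromatic copy of
`H`. -/
def Arrows {V W : Type*} (G : SimpleGraph V) (H : SimpleGraph W) : Prop :=
  ∀ c : Sym2 V → Bool, ∃ (b : Bool) (f : W → V), Function.Injective f ∧
    ∀ x y, H.Adj x y → G.Adj (f x) (f y) ∧ c s(f x, f y) = b

section paths

variable {V : Type*} [Fintype V] [DecidableEq V] (G : SimpleGraph V) [DecidableRel G.Adj]

/-- The neighbours of the last vertex of `p` that are not on `p`. -/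
def fresh {k : ℕ} (p : Fin (k + 1) → V) : Finset V :=
  Finset.univ.filter (fun v => G.Adj (p (Fin.last k)) v ∧ ∀ i, p i ≠ v)

theorem mem_fresh {k : ℕ} (p : Fin (k + 1) → V) (v : V) :
    v ∈ fresh G p ↔ G.Adj (p (Fin.last k)) v ∧ ∀ i, p i ≠ v := by
  simp [fresh]

/-- The weight of the path `p`: the probability that the uniformly random self-avoiding
exploration follows `p`. -/
noncomputable def wgt : (k : ℕ) → (Fin (k + 1) → V) → ℝ
  | 0, _ => 1
  | k + 1, p => wgt k (fun i => p i.castSucc) *
      (if p (Fin.last (k + 1)) ∈ fresh G (fun i => p i.castSucc) then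
        (1 / ((fresh G (fun i => p i.castSucc)).card : ℝ)) else 0)

theorem wgt_nonneg : ∀ (k : ℕ) (p : Fin (k + 1) → V), 0 ≤ wgt G k p := by
  intro k
  induction k with
  | zero => intro p; simp [wgt]
  | succ k ih =>
    intro p
    simp only [wgt]
    apply mul_nonneg (ih _)
    split_ifs <;> positivity

theorem sum_fresh_le {k : ℕ} (q : Fin (k + 1) → V) :
    ∑ v : V, (if v ∈ fresh G q then (1 / ((fresh G q).card : ℝ)) else 0) ≤ 1 := by
  rw [Finset.sum_ite_mem, Finset.univ_inter, Finset.sum_const, nsmul_eq_mul]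
  by_cases h : ((fresh G q).card : ℝ) = 0
  · rw [h]; simp
  · rw [mul_one_div, div_self h]

theorem sum_wgt_le (S : Finset V) : ∀ k : ℕ,
    ∑ p : Fin (k + 1) → V, (if p 0 ∈ S then wgt G k p else 0) ≤ S.card := by
  intro k
  induction k with
  | zero =>
    have h1 : ∑ p : Fin (0 + 1) → V, (if p 0 ∈ S then wgt G 0 p else 0)
        = ∑ v : V, (if v ∈ S then (1:ℝ) else 0) := by
      apply Fintype.sum_equiv (Equiv.funUnique (Fin 1) V)
      intro p
      simp [wgt]
    rw [h1]
    simp
  | succ k ih =>
    refine le_trans ?_ ih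
    have h1 : ∑ p : Fin (k + 1 + 1) → V, (if p 0 ∈ S then wgt G (k + 1) p else 0)
        = ∑ x : V × (Fin (k + 1) → V), (if x.2 0 ∈ S then wgt G k x.2 *
          (if x.1 ∈ fresh G x.2 then (1 / ((fresh G x.2).card : ℝ)) else 0) else 0) := by
      symm
      apply Fintype.sum_equiv (Fin.snocEquiv (fun _ => V))
      rintro ⟨u, q⟩
      have h0 : (Fin.snocEquiv (fun _ => V)) (u, q) = (Fin.snoc q u : Fin (k + 2) → V) := rfl
      have h00 : (Fin.snoc q u : Fin (k + 2) → V) 0 = q 0 := by
        have : (0 : Fin (k + 2)) = Fin.castSucc (0 : Fin (k + 1)) := rfl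
        rw [this, Fin.snoc_castSucc]
      have h2 : (fun i : Fin (k + 1) => (Fin.snoc q u : Fin (k + 2) → V) i.castSucc) = q := by
        funext i
        rw [Fin.snoc_castSucc]
      have h3 : (Fin.snoc q u : Fin (k + 2) → V) (Fin.last (k + 1)) = u := Fin.snoc_last _ _
      rw [h0, h00]
      simp only [wgt]
      rw [h2, h3]
    rw [h1, Fintype.sum_prod_type, Finset.sum_comm]
    apply Finset.sum_le_sum
    intro q _
    by_cases hq : q 0 ∈ S
    · simp only [if_pos hq]
      rw [← Finset.mul_sum]
      exact mul_le_of_le_one_right (wgt_nonneg G k q) (sum_fresh_le G q)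
    · simp only [if_neg hq]
      simp

theorem card_pos_degree_le : (Finset.univ.filter (fun v => 0 < G.degree v)).card ≤ 2 * G.edgeFinset.card := by
  rw [← SimpleGraph.sum_degrees_eq_twice_card_edges]
  calc (Finset.univ.filter (fun v => 0 < G.degree v)).card
      = ∑ v ∈ Finset.univ.filter (fun v => 0 < G.degree v), 1 := by simp
    _ ≤ ∑ v ∈ Finset.univ.filter (fun v => 0 < G.degree v), G.degree v := by
        apply Finset.sum_le_sum
        intro v hv
        exact (Finset.mem_filter.mp hv).2
    _ ≤ ∑ v, G.degree v := Finset.sum_le_sum_of_subset (Finset.filter_subset _ _)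

/-- AM-GM in the form we need. -/
theorem prod_le_pow_of_sum_le {ι : Type*} (s : Finset ι) (z : ι → ℝ) (μ : ℝ) (hμ : 0 < μ)
    (hz : ∀ i ∈ s, 0 ≤ z i) (hsum : ∑ i ∈ s, z i ≤ s.card * μ) : ∏ i ∈ s, z i ≤ μ ^ s.card := by
  have h1 : ∏ i ∈ s, z i ≤ ∏ i ∈ s, (μ * Real.exp (z i / μ - 1)) := by
    apply Finset.prod_le_prod hz
    intro i _
    have := Real.add_one_le_exp (z i / μ - 1)
    have h2 : z i = μ * (z i / μ - 1 + 1) := by field_simp; ring
    calc z i = μ * (z i / μ - 1 + 1) := h2
      _ ≤ _ := mul_le_mul_of_nonneg_left this hμ.le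
  refine h1.trans ?_
  rw [Finset.prod_mul_distrib, Finset.prod_const, ← Real.exp_sum]
  have h3 : ∑ i ∈ s, (z i / μ - 1) ≤ 0 := by
    rw [Finset.sum_sub_distrib, ← Finset.sum_div]
    simp only [Finset.sum_const, nsmul_eq_mul, mul_one]
    rw [sub_nonpos, div_le_iff₀ hμ]
    exact hsum
  calc μ ^ s.card * Real.exp (∑ i ∈ s, (z i / μ - 1)) ≤ μ ^ s.card * 1 := by
        apply mul_le_mul_of_nonneg_left _ (by positivity)
        exact Real.exp_le_one_iff.mpr h3
    _ = _ := mul_one _

/-- The initial segment of length `i + 1` of the sequence `p`. -/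
def pre {k : ℕ} (p : Fin (k + 1) → V) (i : Fin (k + 1)) : Fin ((i : ℕ) + 1) → V :=
  fun j => p ⟨j, by omega⟩

theorem wgt_eq (k : ℕ) : ∀ (p : Fin (k + 1) → V), Function.Injective p →
    (∀ i : Fin k, G.Adj (p i.castSucc) (p i.succ)) →
    wgt G k p = ∏ i : Fin k, (1 / ((fresh G (pre p i.castSucc)).card : ℝ)) := by
  induction k with
  | zero => intro p _ _; simp [wgt]
  | succ k ih =>
    intro p hp hadj
    have h1 := ih (fun i => p i.castSucc) (hp.comp (Fin.castSucc_injective _)) (by
      intro i
      exact hadj i.castSucc)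
    simp only [wgt]
    rw [h1, Fin.prod_univ_castSucc]
    have h2 : p (Fin.last (k + 1)) ∈ fresh G (fun i : Fin (k + 1) => p i.castSucc) := by
      simp only [fresh, Finset.mem_filter, Finset.mem_univ, true_and]
      refine ⟨hadj (Fin.last k), ?_⟩
      intro i h
      have := hp h
      have h3 := congrArg Fin.val this
      simp only [Fin.val_castSucc, Fin.val_last] at h3
      omega
    rw [if_pos h2]
    congr 1

/-- The number of paths on `k + 1` vertices in a graph with `m` edges is at most
`2 m (m / k) ^ k`. -/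
theorem card_paths_le (k : ℕ) (hk : 1 ≤ k) (P : Finset (Fin (k + 1) → V))
    (hinj : ∀ p ∈ P, Function.Injective p)
    (hadj : ∀ p ∈ P, ∀ i : Fin k, G.Adj (p i.castSucc) (p i.succ)) :
    (P.card : ℝ) * (k : ℝ) ^ k ≤ 2 * (G.edgeFinset.card : ℝ) ^ (k + 1) := by
  set m : ℝ := (G.edgeFinset.card : ℝ) with hm
  rcases Finset.eq_empty_or_nonempty P with hP | hP
  · rw [hP]
    simp only [Finset.card_empty, Nat.cast_zero, zero_mul]
    positivity
  have hmpos : 0 < m := by
    obtain ⟨p, hp⟩ := hP
    have h1 := hadj p hp ⟨0, hk⟩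
    have h2 : s(p (Fin.castSucc ⟨0, hk⟩), p (Fin.succ ⟨0, hk⟩)) ∈ G.edgeFinset := by
      rw [SimpleGraph.mem_edgeFinset]
      exact h1
    have : 0 < G.edgeFinset.card := Finset.card_pos.mpr ⟨_, h2⟩
    rw [hm]
    exact_mod_cast this
  have hkr : (0:ℝ) < (k : ℝ) := by exact_mod_cast hk
  set μ : ℝ := m / (k : ℝ) with hμdef
  have hμ : 0 < μ := by positivity
  set S : Finset V := Finset.univ.filter (fun v => 0 < G.degree v) with hS
  have hw : ∀ p ∈ P, (μ ^ k)⁻¹ ≤ (if p 0 ∈ S then wgt G k p else 0) := by
    intro p hp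
    have h0 : p 0 ∈ S := by
      rw [hS, Finset.mem_filter]
      refine ⟨Finset.mem_univ _, ?_⟩
      rw [SimpleGraph.degree_pos_iff_exists_adj]
      exact ⟨_, hadj p hp ⟨0, hk⟩⟩
    rw [if_pos h0, wgt_eq G k p (hinj p hp) (hadj p hp)]
    simp only [one_div]
    rw [Finset.prod_inv_distrib]
    have hfpos : ∀ i : Fin k, 0 < (fresh G (pre p i.castSucc)).card := by
      intro i
      apply Finset.card_pos.mpr
      refine ⟨p i.succ, ?_⟩
      rw [mem_fresh]
      constructor
      · exact hadj p hp i
      · intro j h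
        have := hinj p hp h
        have h3 := congrArg Fin.val this
        simp only [Fin.val_succ] at h3
        have h4 := j.2
        simp only [Fin.val_castSucc] at h4
        omega
    -- the edges to fresh vertices are distinct
    have hsum : ∑ i : Fin k, (fresh G (pre p i.castSucc)).card ≤ G.edgeFinset.card := by
      let E : Fin k → Finset (Sym2 V) := fun i =>
        (fresh G (pre p i.castSucc)).image (fun v => s(p i.castSucc, v))
      have hEcard : ∀ i, (E i).card = (fresh G (pre p i.castSucc)).card := by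
        intro i
        apply Finset.card_image_of_injective
        intro u v huv
        have h3 := Sym2.eq_iff.mp huv
        rcases h3 with ⟨_, h3⟩ | ⟨h3, h4⟩
        · exact h3
        · rw [h4, ← h3]
      have hlt : ∀ i j : Fin k, i < j → Disjoint (E i) (E j) := by
        intro i j hij
        rw [Finset.disjoint_left]
        intro e hei hej
        simp only [E, Finset.mem_image] at hei hej
        obtain ⟨u, hu, rfl⟩ := hei
        obtain ⟨v, hv, huv⟩ := hej
        rw [mem_fresh] at hv
        have hne : p j.castSucc ≠ p i.castSucc := by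
          intro h
          have := hinj p hp h
          have h3 := congrArg Fin.val this
          simp only [Fin.val_castSucc] at h3
          have h4 : (i : ℕ) < j := hij
          omega
        have hv2 := hv.2 ⟨i, by
          have h4 : (i : ℕ) < j := hij
          simp only [Fin.val_castSucc]
          omega⟩
        rw [Sym2.eq_iff] at huv
        rcases huv with ⟨h1, _⟩ | ⟨_, h2⟩
        · exact hne h1
        · exact hv2 h2.symm
      have hdisj : (↑(Finset.univ : Finset (Fin k)) : Set (Fin k)).PairwiseDisjoint E := by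
        intro i _ j _ hij
        rcases lt_or_gt_of_ne hij with h | h
        · exact hlt i j h
        · exact (hlt j i h).symm
      have h1 : (Finset.univ.biUnion E).card = ∑ i : Fin k, (fresh G (pre p i.castSucc)).card := by
        rw [Finset.card_biUnion hdisj]
        exact Finset.sum_congr rfl (fun i _ => hEcard i)
      rw [← h1]
      apply Finset.card_le_card
      intro e he
      obtain ⟨i, _, hei⟩ := Finset.mem_biUnion.mp he
      simp only [E, Finset.mem_image] at hei
      obtain ⟨u, hu, rfl⟩ := hei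
      rw [mem_fresh] at hu
      rw [SimpleGraph.mem_edgeFinset]
      exact hu.1
    have h1 : ∏ i : Fin k, ((fresh G (pre p i.castSucc)).card : ℝ) ≤ μ ^ k := by
      have := prod_le_pow_of_sum_le (Finset.univ : Finset (Fin k))
        (fun i => ((fresh G (pre p i.castSucc)).card : ℝ)) μ hμ
        (fun i _ => Nat.cast_nonneg _) (by
          rw [Finset.card_univ, Fintype.card_fin, hμdef, mul_div_cancel₀ _ hkr.ne', hm]
          exact_mod_cast hsum)
      simpa using this
    apply inv_anti₀ _ h1
    apply Finset.prod_pos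
    intro i _
    exact_mod_cast hfpos i
  have hsum : (P.card : ℝ) * (μ ^ k)⁻¹ ≤ 2 * m := by
    calc (P.card : ℝ) * (μ ^ k)⁻¹ = ∑ p ∈ P, (μ ^ k)⁻¹ := by simp
      _ ≤ ∑ p ∈ P, (if p 0 ∈ S then wgt G k p else 0) := Finset.sum_le_sum hw
      _ ≤ ∑ p : Fin (k + 1) → V, (if p 0 ∈ S then wgt G k p else 0) := by
          apply Finset.sum_le_sum_of_subset_of_nonneg (Finset.subset_univ _)
          intro p _ _
          split_ifs
          · exact wgt_nonneg G k p
          · exact le_refl _
      _ ≤ S.card := sum_wgt_le G S k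
      _ ≤ 2 * m := by
          have := card_pos_degree_le G
          rw [← hS] at this
          have h3 : ((S.card : ℕ) : ℝ) ≤ ((2 * G.edgeFinset.card : ℕ) : ℝ) := by exact_mod_cast this
          push_cast at h3
          exact h3
  have h5 : (P.card : ℝ) ≤ 2 * m * μ ^ k := by
    rw [← div_eq_mul_inv, div_le_iff₀ (by positivity)] at hsum
    exact hsum
  calc (P.card : ℝ) * (k : ℝ) ^ k ≤ (2 * m * μ ^ k) * (k : ℝ) ^ k :=
        mul_le_mul_of_nonneg_right h5 (by positivity)
    _ = 2 * m * (μ * (k : ℝ)) ^ k := by rw [mul_pow]; ring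
    _ = 2 * m ^ (k + 1) := by
        rw [hμdef, div_mul_cancel₀ _ hkr.ne']
        ring

end paths

end Pool.Agent.Helper47.SizeRamsey
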